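import Pool.Agent.R204.DGb

/-!
MP_a83c81_co, Q1: there is a graph `G` (on 12 vertices) for which the set `D(G)` of the minimal
elements of `P(G)` contains infinitely many pairwise non-isomorphic graphs.
Idea of the proof: helper42.
-/

namespace Pool.Agent.Results.MP_a83c81_co.InfiniteD

/-- Finite simple graphs, on the vertex sets `Fin n`. -/
abbrev Graph := Σ n : ℕ, SimpleGraph (Fin n)

open scoped Classical in
/-- The degree sequence of a graph, as the multiset of its vertex degrees. -/
noncomputable def degSeq (H : Graph) : Multiset ℕ :=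
  (Finset.univ : Finset (Fin H.1)).val.map
    fun v => (Finset.univ.filter fun u => H.2.Adj v u).card

/-- `H` induces `G`: some induced subgraph of `H` is isomorphic to `G`. -/
def Induces (H G : Graph) : Prop := Nonempty (G.2 ↪g H.2)

/-- `P(G)`: the graphs `H` for which some graph with the same degree sequence induces `G`. -/
def P (G : Graph) : Set Graph := {H | ∃ H' : Graph, degSeq H' = degSeq H ∧ Induces H' G}

/-- `D(G)`: the members of `P(G)` none of whose proper induced subgraphs lies in `P(G)`. -/
def D (G : Graph) : Set Graph :=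
  {H | H ∈ P G ∧ ∀ H' : Graph, H'.1 < H.1 → Induces H H' → H' ∉ P G}

theorem result : ∃ G : Graph, G.1 = 12 ∧ ∃ f : ℕ → Graph, (∀ i, f i ∈ D G) ∧
    ∀ i j, i ≠ j → ¬ Nonempty ((f i).2 ≃g (f j).2) := by
  obtain ⟨f, hf, hij⟩ := Pool.Agent.R204.DGP.DG_infinite
  exact ⟨⟨12, Pool.Agent.R204.DGP.G12⟩, rfl, f, hf, hij⟩

end Pool.Agent.Results.MP_a83c81_co.InfiniteD
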